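import Pool.Agent.Q236.TP.Width

/-!
# The minimal balance constants are limits of finite minima with an explicit rate

`dAll w` is the number `δ_w` of the problem, and `dFin n w` is the least balance constant of a poset
of width `w` with at most `n` elements (a minimum over finitely many posets, so it can be computed).
With an absolute constant `B` put `cW B w = exp (exp (B (log 48 w)³ (24 w)⁴))`.

* `δ_w ≤ dFin n w ≤ δ_w + n ^ (-1 / cW B w)` for all `n ≥ w ≥ 1`.
* Hence `δ_v < δ_w` holds if and only if for some `n` the finite test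
  `dFin n v + n ^ (-1 / cW B w) < dFin n w` is passed, and if `δ_v + 3 η ≤ δ_w`, `η ≤ 1/2`, then the
  test is passed for all `n ≥ (1/η) ^ cW B v`, `n ≥ (1/η) ^ cW B w`.  In particular the statement
  `δ_w < δ_{w+1}` for all `w ≥ 2` of the problem is equivalent to the existence of a finite
  verification for every `w ≥ 2`.
* The same for general posets: for `ε ≤ 1` every poset in which all elements are incomparable to
  fewer than `k` elements can be replaced by one of the same width with at most
  `(4/ε) ^ (24 (2k) ^ (4k+2))` elements, whose balance constant is larger by at most `ε`.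

Proof.  In a poset in which all elements are incomparable to fewer than `k` elements, enumerated by a
linear extension, elements at distance `2k` are comparable.  The uniform linear extension is a Markov
chain on the ideals, every ideal with `m + 4k` elements contains every ideal with `m` elements, and so
the conditional probabilities are contracted by a fixed factor (Doeblin).  Hence probabilities depend
up to `ε` only on a neighbourhood of radius `ρ`.  By the pigeonhole principle a long poset contains
two equal windows of length `2ρ` outside the place where the large antichain is; the piece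
between them can be cut out, and every `ρ`-neighbourhood of the new poset occurs in the old one.
Posets with an element with many incomparable elements have balance constants close to `1/2`
(starting results of this problem and of MP_33fb9b_co).
-/

set_option autoImplicit false

namespace Pool.Agent.Results.MP_c890a7_co.FiniteApproximation

open Pool.Agent.H13R3.WB Pool.Agent.H931R3.Bal Pool.Agent.TH447.KL Pool.Agent.Q288.Bal
open Pool.Agent.Q236.TP

theorem result :
    (∃ B : ℝ, 1 ≤ B ∧
      -- the approximation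
      (∀ w n : ℕ, 1 ≤ w → w ≤ n →
        dAll w ≤ dFin n w ∧ dFin n w ≤ dAll w + (n : ℝ) ^ (-(1 / cW B w))) ∧
      -- strict inequalities have finite verifications
      (∀ v w : ℕ, 1 ≤ v → 1 ≤ w →
        (dAll v < dAll w ↔
          ∃ n : ℕ, v ≤ n ∧ w ≤ n ∧ dFin n v + (n : ℝ) ^ (-(1 / cW B w)) < dFin n w)) ∧
      -- whose size is bounded by a power of the difference
      (∀ (v w n : ℕ) (η : ℝ), 1 ≤ v → 1 ≤ w → v ≤ n → w ≤ n → 0 < η → η ≤ 1 / 2 →
        dAll v + 3 * η ≤ dAll w → (1 / η) ^ cW B v ≤ n → (1 / η) ^ cW B w ≤ n →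
        dFin n v + (n : ℝ) ^ (-(1 / cW B w)) < dFin n w) ∧
      -- the question of the problem
      ((∀ w : ℕ, 2 ≤ w → dAll w < dAll (w + 1)) ↔
        ∀ w : ℕ, 2 ≤ w → ∃ n : ℕ, w + 1 ≤ n ∧
          dFin n w + (n : ℝ) ^ (-(1 / cW B (w + 1))) < dFin n (w + 1))) ∧
    -- thin posets
    (∀ (P : Type) [Fintype P] [PartialOrder P] (k w : ℕ) (ε : ℝ), 1 ≤ w → HasWidth P w →
      (∀ x : P, Nat.card {y : P // ¬ x ≤ y ∧ ¬ y ≤ x} < k) → 0 < ε → ε ≤ 1 →
      ∃ (Q : Type) (_ : Fintype Q) (_ : PartialOrder Q), HasWidth Q w ∧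
        (Fintype.card Q : ℝ) ≤ (4 / ε) ^ (24 * (2 * k) ^ (4 * k + 2)) ∧
        balance Q ≤ balance P + ε) := by
  constructor
  · obtain ⟨B, hB, h⟩ := exists_B
    have key : ∀ w n : ℕ, 1 ≤ w → w ≤ n →
        dAll w ≤ dFin n w ∧ dFin n w ≤ dAll w + (n : ℝ) ^ (-(1 / cW (3 * B) w)) :=
      fun w n hw hn => ⟨dAll_le_dFin hw hn, dFin_le hB h hw hn⟩
    have quant : ∀ (v w n : ℕ) (η : ℝ), 1 ≤ v → 1 ≤ w → v ≤ n → w ≤ n → 0 < η → η ≤ 1 / 2 →
        dAll v + 3 * η ≤ dAll w → (1 / η) ^ cW (3 * B) v ≤ n → (1 / η) ^ cW (3 * B) w ≤ n →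
        dFin n v + (n : ℝ) ^ (-(1 / cW (3 * B) w)) < dFin n w := by
      intro v w n η hv hw hvn hwn hη hη2 hgap h1 h2
      have hn0 : (0 : ℝ) < n := by exact_mod_cast (by omega : 0 < n)
      have e : ∀ u, (1 / η) ^ cW (3 * B) u ≤ n → (n : ℝ) ^ (-(1 / cW (3 * B) u)) ≤ η := by
        intro u hu
        have hc := cW_pos (3 * B) u
        have h3 : 1 / η ≤ (n : ℝ) ^ (1 / cW (3 * B) u) := by
          have h4 : ((1 / η) ^ cW (3 * B) u) ^ (1 / cW (3 * B) u) ≤ (n : ℝ) ^ (1 / cW (3 * B) u) :=
            Real.rpow_le_rpow (by positivity) hu (by positivity)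
          rwa [← Real.rpow_mul (by positivity), mul_one_div_cancel hc.ne', Real.rpow_one] at h4
        rw [Real.rpow_neg hn0.le]
        exact (inv_anti₀ (by positivity) h3).trans (by rw [one_div, inv_inv])
      have h3 := (key v n hv hvn).2
      have h4 := (key w n hw hwn).1
      have h5 := e v h1
      have h6 := e w h2
      linarith
    have iff1 : ∀ v w : ℕ, 1 ≤ v → 1 ≤ w →
        (dAll v < dAll w ↔
          ∃ n : ℕ, v ≤ n ∧ w ≤ n ∧ dFin n v + (n : ℝ) ^ (-(1 / cW (3 * B) w)) < dFin n w) := by
      intro v w hv hw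
      constructor
      · intro hlt
        set η := min ((dAll w - dAll v) / 3) (1 / 2) with hη
        have hη0 : 0 < η := lt_min (by linarith) (by norm_num)
        obtain ⟨n, hn⟩ := exists_nat_ge (max (max (v : ℝ) w) (max ((1 / η) ^ cW (3 * B) v)
          ((1 / η) ^ cW (3 * B) w)))
        have h1 : (v : ℝ) ≤ n := (le_max_left _ _).trans ((le_max_left _ _).trans hn)
        have h2 : (w : ℝ) ≤ n := (le_max_right _ _).trans ((le_max_left _ _).trans hn)
        have h3 : (1 / η) ^ cW (3 * B) v ≤ n := (le_max_left _ _).trans ((le_max_right _ _).trans hn)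
        have h4 : (1 / η) ^ cW (3 * B) w ≤ n :=
          (le_max_right _ _).trans ((le_max_right _ _).trans hn)
        have h5 : (v : ℕ) ≤ n := by exact_mod_cast h1
        have h6 : (w : ℕ) ≤ n := by exact_mod_cast h2
        refine ⟨n, h5, h6, quant v w n η hv hw h5 h6 hη0 (min_le_right _ _) ?_ h3 h4⟩
        have := min_le_left ((dAll w - dAll v) / 3) (1 / 2)
        linarith
      · rintro ⟨n, h1, h2, h3⟩
        have h4 := (key v n hv h1).1
        have h5 := (key w n hw h2).2
        linarith
    refine ⟨3 * B, by linarith, key, iff1, quant, ?_⟩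
    constructor
    · intro hQ w hw
      obtain ⟨n, _, h2, h3⟩ := (iff1 w (w + 1) (by omega) (by omega)).1 (hQ w hw)
      exact ⟨n, h2, h3⟩
    · intro hQ w hw
      obtain ⟨n, h2, h3⟩ := hQ w hw
      exact (iff1 w (w + 1) (by omega) (by omega)).2 ⟨n, by omega, h2, h3⟩
  · intro P _ _ k w ε hw hP hk hε hε1
    obtain ⟨s, hs, hsw⟩ := hP.1
    obtain ⟨Q, k1, k2, q1, q2, q3, q4⟩ := small_eps (k := k) hk hw s hs hsw hP.2 hε hε1
    exact ⟨Q, k1, k2, ⟨q2, q3⟩, q1, q4⟩

end Pool.Agent.Results.MP_c890a7_co.FiniteApproximation
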