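import Pool.Agent.Q288.Bal.Thin

/-!
# The minimal balance constants are determined by thin posets without wide autonomous subsets

`dAll w` is the number `δ_w` of the problem, the infimum of the balance constants of the finite
posets of width `w`.  With an absolute constant `B` put `thinB B w = exp (B (log 48 w)³ (24 w)⁴)`.

* `δ_w` is equal to `dThin B w`, the infimum over the posets of width `w` in which every element is
  incomparable to fewer than `thinB B w` elements and in which no proper autonomous subset has
  width `w` (in particular they are not direct sums).  Every poset, of any width, with an element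
  incomparable to at least `thinB B w` elements has balance constant at least `δ_w + 1/(24 w)`.
* The inequality `δ_2 < δ_w`, `w ≥ 3`: every poset of width at least three in the class `Cls K` (the
  class generated by the posets of width two, semiorders, wide interval orders and posets which are
  not `K`-thin under sums and substitution) has balance constant at least `δ_2 + 1/3000000`, and a
  lower bound `c ≤ 1/3 + 1/3000000` for all irreducible posets outside this class gives `c ≤ δ_w` for
  all `w ≥ 3`.
-/

set_option autoImplicit false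

namespace Pool.Agent.Results.MP_c890a7_co.ThinReduction

open Pool.Agent.H13R3.WB Pool.Agent.H931R3.Bal Pool.Agent.TH447.KL Pool.Agent.Q288.Bal

theorem result :
    (∃ B : ℝ, 1 ≤ B ∧ ∀ w : ℕ, 1 ≤ w →
      dAll w = dThin B w ∧
      ∀ (P : Type) [Fintype P] [PartialOrder P],
        (∃ x : P, thinB B w ≤ Nat.card {y : P // ¬ x ≤ y ∧ ¬ y ≤ x}) →
        dAll w + 1 / (24 * w) ≤ balance P) ∧
    dAll 2 = 1 / 3 ∧
    ∃ K : ℕ,
      (∀ w : ℕ, 3 ≤ w → ∀ (P : Type) [Fintype P] [PartialOrder P], HasWidth P w → Cls K P →
        dAll 2 + 1 / 3000000 ≤ balance P) ∧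
      ∀ c : ℝ, c ≤ 1 / 3 + 1 / 3000000 →
        (∀ (P : Type) [Fintype P] [PartialOrder P] [Nonempty P], Irreducible P → ¬ Cls K P →
          c ≤ balance P) →
        ∀ w : ℕ, 3 ≤ w → c ≤ dAll w := by
  refine ⟨?_, dAll_two, ?_⟩
  · obtain ⟨B, hB, h⟩ := exists_B
    refine ⟨B, hB, fun w hw => ⟨dAll_eq_dThin hB h hw, fun P _ _ hx => ?_⟩⟩
    refine nonthin_far h hw P ?_
    obtain ⟨x, hx⟩ := hx
    exact fun ht => absurd (ht x) (not_lt.2 hx)
  · obtain ⟨K, hK⟩ := Pool.Agent.Q288.Bal.exists_good
    refine ⟨K, fun w hw P _ _ hP hC => ?_, fun c hc h w hw => dAll_ge_of hK hc h hw⟩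
    rw [dAll_two]
    exact (cls_gap hK hC).2.resolve_left (not_InD_of_width hw hP)

end Pool.Agent.Results.MP_c890a7_co.ThinReduction
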